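import Pool.Agent.LibHG31.B5c
import Pool.Agent.LibHG31.CFin
import Pool.Agent.LibHG31.K6b
import Pool.Agent.LibHG31.K8
import Pool.Agent.LibHG31.T29
import Pool.Agent.LibGL89.Z4

set_option autoImplicit false

namespace Pool.Agent.Results.MP_ccee18_nt.GoldbachLinnik

open Finset

/-- The reversal of `n` in base `b`: the number whose digit string is that of `n` read backwards. -/
def rev (b n : ℕ) : ℕ := Nat.ofDigits b (Nat.digits b n).reverse

/-- **A prime plus a reversed prime plus a bounded number of powers of `b`: every large `N`, every base.**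
For every base `b ≥ 2` there is `K₀` such that for every `K ≥ K₀` there are `N₀` and `c > 0` with: every `N ≥ N₀` for which
`N + K b` is even (in particular every even `N ≥ N₀` if `K` or `b` is even) is of the form
`N = p₁ + rev p₂ + b ^ v₁ + ... + b ^ v_K` with `p₁`, `p₂` prime, `v_i ≥ 1` and `rev p₂` coprime to `b ^ 3 - b`;
moreover there are at least `c N (log N) ^ (K - 2)` pairs `((v₁, ..., v_K), p₂)` of this kind with `1 ≤ v_i ≤ N`, `p₂ < N`. -/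
theorem result : ∀ b : ℕ, 2 ≤ b → ∃ K₀ : ℕ, 2 ≤ K₀ ∧ ∀ K : ℕ, K₀ ≤ K →
    ∃ (N₀ : ℕ) (c : ℝ), 0 < c ∧ ∀ N : ℕ, N₀ ≤ N → Even (N + K * b) →
      (∃ (p₁ p₂ : ℕ) (v : Fin K → ℕ), p₁.Prime ∧ p₂.Prime ∧ (∀ i, 1 ≤ v i) ∧
        N = p₁ + rev b p₂ + ∑ i, b ^ v i ∧ Nat.Coprime (rev b p₂) (b ^ 3 - b)) ∧
      c * (N * Real.log N ^ (K - 2)) ≤
        ((((Fintype.piFinset fun _ : Fin K => Icc 1 N) ×ˢ range N).filter
          (fun x : (Fin K → ℕ) × ℕ => x.2.Prime ∧ Nat.Coprime (rev b x.2) (b ^ 3 - b) ∧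
            rev b x.2 + ∑ i, b ^ x.1 i ≤ N ∧ (N - (rev b x.2 + ∑ i, b ^ x.1 i)).Prime)).card : ℝ) := by
  intro b hb
  have hC := Pool.Agent.LibHG31.C_main b hb (Pool.Agent.LibHG31.c2Stmt b hb) (Pool.Agent.LibHG31.c2pStmt b hb)
  have hT := Pool.Agent.LibHG31.TT.tt_stmt b hb
  obtain ⟨K₀, hK₀, h⟩ := GL89.final b hb (Pool.Agent.LibHG31.BStmt_holds b hb hT) hC
  refine ⟨K₀, hK₀, fun K hK => ?_⟩
  obtain ⟨N₀, c, hc, h1⟩ := h K hK
  refine ⟨N₀ + 2, c, hc, fun N hN hev => ?_⟩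
  have h2 : c * (N * Real.log N ^ (K - 2)) ≤ ((GL89.reprs b K N).card : ℝ) := h1 N (by omega) hev
  have h3 : c * (N * Real.log N ^ (K - 2)) ≤
      ((((Fintype.piFinset fun _ : Fin K => Icc 1 N) ×ˢ range N).filter
        (fun x : (Fin K → ℕ) × ℕ => x.2.Prime ∧ Nat.Coprime (rev b x.2) (b ^ 3 - b) ∧
          rev b x.2 + ∑ i, b ^ x.1 i ≤ N ∧ (N - (rev b x.2 + ∑ i, b ^ x.1 i)).Prime)).card : ℝ) := h2
  refine ⟨?_, h3⟩
  have hN2 : (2 : ℝ) ≤ N := by exact_mod_cast (by omega : 2 ≤ N)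
  have hlog : 0 < Real.log N := Real.log_pos (by linarith)
  have hpos : (0 : ℝ) < ((GL89.reprs b K N).card : ℝ) := lt_of_lt_of_le (by positivity) h2
  obtain ⟨⟨v, p⟩, hx⟩ := card_pos.1 (by exact_mod_cast hpos : 0 < (GL89.reprs b K N).card)
  unfold GL89.reprs at hx
  obtain ⟨h4, h5, h6, h7, h8⟩ := mem_filter.1 hx
  obtain ⟨h9, _⟩ := mem_product.1 h4
  have h10 : ∀ i, v i ∈ Icc 1 N := Fintype.mem_piFinset.1 h9
  refine ⟨N - (rev b p + ∑ i, b ^ v i), p, v, h8, h5, fun i => (mem_Icc.1 (h10 i)).1, ?_, h6⟩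
  have h7' : rev b p + ∑ i, b ^ v i ≤ N := h7
  omega

end Pool.Agent.Results.MP_ccee18_nt.GoldbachLinnik
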