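import Pool.Agent.LibHG31.A5
import Pool.Agent.LibHG31.B5c
import Pool.Agent.LibHG31.CFin
import Pool.Agent.LibHG31.D4
import Pool.Agent.LibHG31.K6b
import Pool.Agent.LibHG31.K8
import Pool.Agent.LibHG31.T29

set_option autoImplicit false

namespace Pool.Agent.Results.MP_ccee18_nt.PowerSaving

open Finset

/-- The reversal of `n` in base `b`: the number whose digit string is that of `n` read backwards. -/
def rev (b n : ℕ) : ℕ := Nat.ofDigits b (Nat.digits b n).reverse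

/-- **The exceptional set of a prime plus a reversed prime has power saving, in every base.**
For every base `b ≥ 2` there are `δ > 0`, `c > 0` and `C` such that for all `x ≥ 1`, all even numbers `N ≤ x` outside a set `E` of
at most `C x ^ (1 - δ)` elements are of the form `N = p₁ + rev p₂` with `p₁`, `p₂` prime and `rev p₂` coprime to `b ^ 3 - b`; moreover
there are at least `c N / (log N) ^ 2` primes `p < N` for which `N - rev p` is a prime and `rev p` is coprime to `b ^ 3 - b`. -/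
theorem result : ∀ b : ℕ, 2 ≤ b → ∃ δ c C : ℝ, 0 < δ ∧ 0 < c ∧ ∀ x : ℕ, 1 ≤ x →
    ∃ E : Finset ℕ, (E.card : ℝ) ≤ C * (x : ℝ) ^ (1 - δ) ∧
      ∀ N : ℕ, 1 ≤ N → N ≤ x → Even N → N ∉ E →
        (∃ p₁ p₂ : ℕ, p₁.Prime ∧ p₂.Prime ∧ N = p₁ + rev b p₂ ∧ Nat.Coprime (rev b p₂) (b ^ 3 - b)) ∧
        c * (N / Real.log N ^ 2) ≤
          (((range N).filter (fun p => p.Prime ∧ Nat.Coprime (rev b p) (b ^ 3 - b) ∧
            rev b p ≤ N ∧ (N - rev b p).Prime)).card : ℝ) := by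
  intro b hb
  have hC := Pool.Agent.LibHG31.C_main b hb (Pool.Agent.LibHG31.c2Stmt b hb) (Pool.Agent.LibHG31.c2pStmt b hb)
  have hT := Pool.Agent.LibHG31.TT.tt_stmt b hb
  obtain ⟨δ, c, C, hδ, _, hc, _, h⟩ := Pool.Agent.LibHG31.HG_count b hb (Pool.Agent.LibHG31.AStmt_holds b hb)
    (Pool.Agent.LibHG31.BStmt_holds b hb hT) hC
  refine ⟨δ, c, C, hδ, hc, fun x hx => ⟨Pool.Agent.LibHG31.ExcR b c (Icc 1 x), h x hx, ?_⟩⟩
  intro N hN1 hNx hev hN
  have h2 : 2 ≤ N := by
    obtain ⟨k, hk⟩ := hev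
    omega
  have hnot : ¬ ((Pool.Agent.LibHG31.reps b N).card : ℝ) < c * (N / Real.log N ^ 2) := by
    intro hlt
    apply hN
    unfold Pool.Agent.LibHG31.ExcR
    rw [mem_filter, mem_Icc]
    exact ⟨⟨hN1, hNx⟩, hev, hlt⟩
  have hge : c * (N / Real.log N ^ 2) ≤ ((Pool.Agent.LibHG31.reps b N).card : ℝ) := not_lt.1 hnot
  have hlog : (0 : ℝ) < Real.log N := Real.log_pos (by exact_mod_cast (by omega : 1 < N))
  have hNr : (0 : ℝ) < N := by exact_mod_cast (by omega : 0 < N)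
  have hpos : 0 < (Pool.Agent.LibHG31.reps b N).card := by
    have : (0 : ℝ) < (Pool.Agent.LibHG31.reps b N).card := lt_of_lt_of_le (by positivity) hge
    exact_mod_cast this
  refine ⟨?_, hge⟩
  obtain ⟨p, hp⟩ := card_pos.1 hpos
  obtain ⟨_, h3, h4, h5, h6⟩ := mem_filter.1 hp
  refine ⟨N - rev b p, p, h6, h3, ?_, h4⟩
  have h5' : rev b p ≤ N := h5
  omega

end Pool.Agent.Results.MP_ccee18_nt.PowerSaving
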