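import Pool.Agent.LibRN31.P6
import Pool.Agent.LibRN31.S2
import Pool.Agent.LibRN31.S2a
import Pool.Agent.LibRN31.S3
import Pool.Agent.LibRN31.S4
import Pool.Agent.LibRN31.S5

set_option autoImplicit false

namespace Pool.Agent.Results.MP_ccee18_nt.RenyiType

open Finset

/-- The reversal of `n` in base `b`: the number whose digit string is that of `n` read backwards. -/
def rev (b n : ℕ) : ℕ := Nat.ofDigits b (Nat.digits b n).reverse

open scoped Classical in
/-- The primes `p < N` such that `N - p = rev n` is coprime to `b ^ 3 - b`, for some `n` with at most `k` prime factors (counted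
with multiplicity), all of them larger than `N ^ δ`. -/
noncomputable def reps (b N k : ℕ) (δ : ℝ) : Finset ℕ :=
  (range N).filter (fun p => p.Prime ∧ ∃ n : ℕ, N = p + rev b n ∧ Nat.Coprime (rev b n) (b ^ 3 - b) ∧
    n.primeFactorsList.length ≤ k ∧ ∀ q : ℕ, q.Prime → q ∣ n → (N : ℝ) ^ δ < q)

/-- **Every large even number is a prime plus a reversed almost prime, in every base.**
For every base `b ≥ 2` there are `k`, `δ > 0` and `c > 0` such that for every sufficiently large even `N` there are at least
`c N / (log N) ^ 2` primes `p < N` such that `N - p` is coprime to `b ^ 3 - b` and is the reversal of a number with at most `k`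
prime factors, all of them larger than `N ^ δ`. -/
theorem result : ∀ b : ℕ, 2 ≤ b → ∃ (k : ℕ) (δ c : ℝ), 0 < δ ∧ 0 < c ∧ ∃ N₀ : ℕ, ∀ N : ℕ, N₀ ≤ N → Even N →
    c * (N / Real.log N ^ 2) ≤ ((reps b N k δ).card : ℝ) := by
  intro b hb
  obtain ⟨δ, c, k, hδ, hc, N₀, h⟩ := Pool.Agent.LibRN31.final b hb
    (Pool.Agent.LibRN31.sieve b hb
      (Pool.Agent.LibRN31.level b hb (Pool.Agent.LibRN31.avg b hb) (Pool.Agent.LibRN31.EE_le b hb))
      (Pool.Agent.LibRN31.main_term b hb))
  exact ⟨k, δ, c, hδ, hc, N₀, fun N hN he => h N hN he⟩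

end Pool.Agent.Results.MP_ccee18_nt.RenyiType
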